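import Pool.Agent.MP_0e6a9f_ag.H19.Spec

/-! Row DIR: the glued category is directed. -/

open MulOpposite

noncomputable section
namespace FMD
open _root_.FMD.DGR _root_.FMD.Bimod

/-- The ungraded form of `Directed`. -/
structure DirZ (K : Type) [Field K] (C : DGR) [Algebra K C.B] (ht : C.O → ℕ) : Prop where
  self : ∀ o b, ∃ c : K, C.e o * b * C.e o = c • C.e o
  down : ∀ o o', o ≠ o' → ht o' ≤ ht o → ∀ b, C.e o' * b * C.e o = 0

variable {K : Type} [Field K]

lemma DirZ.directed {C : DGR} [Algebra K C.B] {ht : C.O → ℕ} (h : DirZ K C ht) (h0 : Deg0 C) :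
    Directed K C ht where
  self o n b hb := by
    obtain ⟨h1, h2, h3⟩ := C.mem_self_cor.1 hb
    obtain ⟨c, hc⟩ := h.self o b
    exact ⟨h0.zero h1, c, by rw [← hc, h2, h3]⟩
  down o o' hne hle n b hb := by
    obtain ⟨-, h2, h3⟩ := C.mem_self_cor.1 hb
    rw [← h.down o o' hne hle b, h2, h3]

/-- The height of an object of the canonical algebra. -/
def COb.ht {ι : Type} : COb ι → ℕ
  | .z => 0
  | .x _ => 1
  | .w => 2

lemma can_dirZ {ι τ : Type} [Fintype ι] [DecidableEq ι] [Fintype τ] [DecidableEq τ] [CharP K 2]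
    (l : ι → τ → K) : DirZ K (Can l) COb.ht where
  self := by
    rintro (_ | i | _) (b : CB l)
    · exact ⟨b.z, show CB.ez l * b * CB.ez l = b.z • CB.ez l by ext <;> simp [CB.ez]⟩
    · refine ⟨b.x i, show CB.ex l i * b * CB.ex l i = b.x i • CB.ex l i from ?_⟩
      ext k <;> simp [CB.ex, Pi.single_apply]
      split_ifs with h
      · rw [h]
      · rfl
    · exact ⟨b.w, show CB.ew l * b * CB.ew l = b.w • CB.ew l by ext <;> simp [CB.ew]⟩
  down := by
    rintro (_ | i | _) (_ | j | _) hne hle (b : CB l)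
    · exact absurd rfl hne
    · simp [COb.ht] at hle
    · simp [COb.ht] at hle
    · show CB.ez l * b * CB.ex l i = 0
      ext <;> simp [CB.ez, CB.ex]
    · show CB.ex l j * b * CB.ex l i = 0
      have hij : i ≠ j := fun e => hne (e ▸ rfl)
      ext k <;> simp [CB.ex, Pi.single_apply]
      rintro rfl h
      exact absurd h hij
    · simp [COb.ht] at hle
    · show CB.ez l * b * CB.ew l = 0
      ext <;> simp [CB.ez, CB.ew]
    · show CB.ex l j * b * CB.ew l = 0
      ext <;> simp [CB.ex, CB.ew]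
    · exact absurd rfl hne

lemma DirZ.tens {C C' : DGR} [Algebra K C.B] [C.KL K] [Algebra K C'.B] [C'.KL K]
    {ht : C.O → ℕ} {ht' : C'.O → ℕ} (h : DirZ K C ht) (h' : DirZ K C' ht') :
    DirZ K (tens K C C') fun o => ht o.1 + ht' o.2 where
  self o b := by
    induction b using tens_ind with
    | zero => exact ⟨0, by simp⟩
    | add x y hx hy =>
      obtain ⟨c, hc⟩ := hx
      obtain ⟨c', hc'⟩ := hy
      exact ⟨c + c', by rw [mul_add, add_mul, hc, hc', add_smul]⟩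
    | tmul x y =>
      obtain ⟨c, hc⟩ := h.self o.1 x
      obtain ⟨c', hc'⟩ := h'.self o.2 y
      exact ⟨c * c', by rw [tens_e', tm_mul, tm_mul, hc, hc', smul_tm, tm_smul, smul_smul]⟩
  down o o' hne hle b := by
    induction b using tens_ind with
    | zero => simp
    | add x y hx hy => rw [mul_add, add_mul, hx, hy, add_zero]
    | tmul x y =>
      rw [tens_e', tens_e', tm_mul, tm_mul]
      by_cases h1 : o.1 ≠ o'.1 ∧ ht o'.1 ≤ ht o.1
      · rw [h.down _ _ h1.1 h1.2, zero_tm]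
      by_cases h2 : o.2 ≠ o'.2 ∧ ht' o'.2 ≤ ht' o.2
      · rw [h'.down _ _ h2.1 h2.2, tm_zero]
      exfalso
      by_cases e1 : o.1 = o'.1
      · by_cases e2 : o.2 = o'.2
        · exact hne (Prod.ext e1 e2)
        · rw [e1] at hle
          exact h2 ⟨e2, by omega⟩
      · have g1 : ¬ ht o'.1 ≤ ht o.1 := fun g => h1 ⟨e1, g⟩
        by_cases e2 : o.2 = o'.2
        · rw [e2] at hle
          omega
        · exact h2 ⟨e2, by omega⟩

lemma Directed.glue {A₁ A₂ : DGR} [Algebra K A₁.B] [Algebra K A₂.B] (N : Bimod A₁ A₂)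
    [Module K N.H] [IsScalarTower K A₂.B N.H] [IsScalarTower K A₁.Bᵐᵒᵖ N.H]
    {ht₁ : A₁.O → ℕ} {ht₂ : A₂.O → ℕ} (h₁ : Directed K A₁ ht₁) (h₂ : Directed K A₂ ht₂) :
    Directed K (glue N) (Sum.elim ht₁ fun o => ht₂ o + (Finset.univ.sup ht₁ + 1)) := by
  have ll : ∀ (a a' : A₁.O) n (b : (FMD.glue N).B),
      b ∈ (FMD.glue N).self.cor (Sum.inl a) (Sum.inl a') n →
      (glue.p₁ N).f b ∈ A₁.self.cor a a' n ∧ (glue.p₂ N).f b = 0 ∧ glue.pN N b = 0 := by
    intro a a' n b hb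
    obtain ⟨h0, h1, h2⟩ := (FMD.glue N).mem_self_cor.1 hb
    have e2 : (glue.p₂ N).f b = 0 := by rw [← h1, map_mul, glue.e_inl, glue.p₂_mk, zero_mul]
    refine ⟨A₁.mem_self_cor.2 ⟨h0.1, ?_, ?_⟩, e2, ?_⟩
    · conv_rhs => rw [← h1, map_mul, glue.e_inl, glue.p₁_mk]
    · conv_rhs => rw [← h2, map_mul, glue.e_inl, glue.p₁_mk]
    · rw [← h1, glue.pN_mul, glue.e_inl, glue.p₂_mk, glue.pN_mk, zero_smul, smul_zero, add_zero]
  have rr : ∀ (a a' : A₂.O) n (b : (FMD.glue N).B),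
      b ∈ (FMD.glue N).self.cor (Sum.inr a) (Sum.inr a') n →
      (glue.p₂ N).f b ∈ A₂.self.cor a a' n ∧ (glue.p₁ N).f b = 0 ∧ glue.pN N b = 0 := by
    intro a a' n b hb
    obtain ⟨h0, h1, h2⟩ := (FMD.glue N).mem_self_cor.1 hb
    have e1 : (glue.p₁ N).f b = 0 := by rw [← h1, map_mul, glue.e_inr, glue.p₁_mk, zero_mul]
    refine ⟨A₂.mem_self_cor.2 ⟨h0.2.1, ?_, ?_⟩, e1, ?_⟩
    · conv_rhs => rw [← h1, map_mul, glue.e_inr, glue.p₂_mk]
    · conv_rhs => rw [← h2, map_mul, glue.e_inr, glue.p₂_mk]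
    · rw [← h2, glue.pN_mul, glue.e_inr, glue.p₁_mk, glue.pN_mk, op_zero, zero_smul, smul_zero,
        add_zero]
  constructor
  · rintro (a | a) n b hb
    · obtain ⟨g1, g2, g3⟩ := ll a a n b hb
      obtain ⟨u, c, hc⟩ := h₁.self a n _ g1
      refine ⟨fun hn => glue.ext (by rw [u hn, map_zero]) (by rw [g2, map_zero])
        (by rw [g3, map_zero]), c, glue.ext ?_ ?_ ?_⟩
      · rw [hc, glue.p₁_smul, glue.e_inl, glue.p₁_mk]
      · rw [g2, glue.p₂_smul, glue.e_inl, glue.p₂_mk, smul_zero]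
      · rw [g3, glue.pN_smul, glue.pN_e, smul_zero]
    · obtain ⟨g1, g2, g3⟩ := rr a a n b hb
      obtain ⟨u, c, hc⟩ := h₂.self a n _ g1
      refine ⟨fun hn => glue.ext (by rw [g2, map_zero]) (by rw [u hn, map_zero])
        (by rw [g3, map_zero]), c, glue.ext ?_ ?_ ?_⟩
      · rw [g2, glue.p₁_smul, glue.e_inr, glue.p₁_mk, smul_zero]
      · rw [hc, glue.p₂_smul, glue.e_inr, glue.p₂_mk]
      · rw [g3, glue.pN_smul, glue.pN_e, smul_zero]
  · rintro (a | a) (a' | a') hne hle n b hb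
    · obtain ⟨g1, g2, g3⟩ := ll a a' n b hb
      exact glue.ext (by rw [h₁.down a a' (fun e => hne (e ▸ rfl)) hle n _ g1, map_zero])
        (by rw [g2, map_zero]) (by rw [g3, map_zero])
    · have := Finset.le_sup (f := ht₁) (Finset.mem_univ a)
      simp only [Sum.elim_inl, Sum.elim_inr] at hle
      omega
    · obtain ⟨-, h1, h2⟩ := (FMD.glue N).mem_self_cor.1 hb
      refine glue.ext ?_ ?_ ?_
      · rw [← h2, map_mul, glue.e_inr, glue.p₁_mk, mul_zero, map_zero]
      · rw [← h1, map_mul, glue.e_inl, glue.p₂_mk, zero_mul, map_zero]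
      · rw [← h1, glue.pN_mul, glue.e_inl, glue.p₂_mk, glue.pN_mk, zero_smul, smul_zero, add_zero,
          map_zero]
    · obtain ⟨g1, g2, g3⟩ := rr a a' n b hb
      simp only [Sum.elim_inr] at hle
      exact glue.ext (by rw [g2, map_zero])
        (by rw [h₂.down a a' (fun e => hne (e ▸ rfl)) (by omega) n _ g1, map_zero])
        (by rw [g3, map_zero])

theorem dir : DirStmt := fun K _ _ s t n =>
  have h := ((can_dirZ (lp s)).tens (can_dirZ (lp t))).directed
    (Deg0.tens (K := K) (can_deg0 _) (can_deg0 _))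
  ⟨_, h.glue (Fr n) h⟩

end FMD
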